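import Pool.Agent.K3h75.TO.StmA

/-!
# The kernel of the norm of an automorphism of prime order, as a module over `ℤ[ζ_p]`

Brick `S_LAT` of the project of helper75.
-/

set_option autoImplicit false

namespace Pool.Agent.K3h26.LAT

open Module Finset

theorem geom_expand {L : Type} [AddCommGroup L] (p q : ℕ) (hpq : p = q + 2) (hp : p.Prime)
    (htf : ∀ (m : ℤ) (x : L), m ≠ 0 → m • x = 0 → x = 0)
    (T : Module.End ℤ L) (hT : ∑ k ∈ range p, T ^ k = 0) :
    (∀ x, (T - 1) x = 0 → x = 0) ∧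
    ∃ V : Module.End ℤ L, ((T - 1) ^ (q + 1) = -((p : ℤ) • (1 + (T - 1) * V))) ∧
      ∀ x, V x ∈ AddSubgroup.closure {y | ∃ k : ℕ, y = ((T - 1) ^ k) x} := by
  have hinj : ∀ x, (T - 1) x = 0 → x = 0 := by
    intro x hx
    have h1 : T x = x := by
      have : T x - x = 0 := by simpa using hx
      exact sub_eq_zero.1 this
    have h2 : ∀ k : ℕ, (T ^ k) x = x := by
      intro k
      induction k with
      | zero => simp
      | succ k ih => rw [pow_succ, Module.End.mul_apply, h1, ih]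
    have h3 : (∑ k ∈ range p, T ^ k) x = 0 := by rw [hT]; rfl
    rw [LinearMap.sum_apply, Finset.sum_congr rfl (fun k _ => h2 k)] at h3
    rw [Finset.sum_const, Finset.card_range] at h3
    exact htf p x (by exact_mod_cast hp.ne_zero) (by rw [natCast_zsmul]; exact h3)
  refine ⟨hinj, ?_⟩
  set N := T - 1 with hN
  have hTp : T ^ p = 1 := by
    have := geom_sum_mul T p
    rw [hT, zero_mul] at this
    exact (sub_eq_zero.1 this.symm)
  have hTN : T = N + 1 := by rw [hN]; abel
  have hexp : ∑ j ∈ range p, (p.choose (j + 1) : ℤ) • N ^ j = 0 := by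
    have h1 : (N + 1) ^ p = ∑ m ∈ range (p + 1), N ^ m * 1 ^ (p - m) * (p.choose m : Module.End ℤ L) :=
      (Commute.one_right N).add_pow p
    rw [← hTN, hTp, Finset.sum_range_succ'] at h1
    simp only [one_pow, mul_one, pow_zero, Nat.choose_zero_right, Nat.cast_one] at h1
    have h2 : ∑ k ∈ range p, N ^ (k + 1) * (p.choose (k + 1) : Module.End ℤ L) = 0 := by
      have := h1.symm
      rwa [add_eq_right] at this
    have h3 : N * ∑ j ∈ range p, (p.choose (j + 1) : ℤ) • N ^ j = 0 := by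
      rw [← h2, Finset.mul_sum]
      refine Finset.sum_congr rfl fun j _ => ?_
      rw [mul_smul_comm, ← pow_succ', zsmul_eq_mul]
      rw [Int.cast_natCast]
      exact (Nat.cast_commute _ _)
    ext x
    have h4 := congrArg (fun f : Module.End ℤ L => f x) h3
    simp only [Module.End.mul_apply, LinearMap.zero_apply] at h4
    rw [LinearMap.zero_apply]
    exact hinj _ h4
  refine ⟨∑ j ∈ range q, ((p.choose (j + 2) / p : ℕ) : ℤ) • N ^ j, ?_, ?_⟩
  · subst hpq
    rw [Finset.sum_range_succ, Nat.choose_self, Finset.sum_range_succ'] at hexp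
    have h5 : ∑ k ∈ range q, ((q + 2).choose (k + 1 + 1) : ℤ) • N ^ (k + 1) =
        ((q + 2 : ℕ) : ℤ) • (N * ∑ j ∈ range q, (((q + 2).choose (j + 2) / (q + 2) : ℕ) : ℤ) • N ^ j) := by
      rw [Finset.mul_sum, Finset.smul_sum]
      refine Finset.sum_congr rfl fun j hj => ?_
      have hj' : j < q := Finset.mem_range.1 hj
      have hd : (q + 2) ∣ (q + 2).choose (j + 2) := hp.dvd_choose_self (by omega) (by omega)
      rw [mul_smul_comm, ← pow_succ', smul_smul, ← Nat.cast_mul, Nat.mul_div_cancel' hd]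
    rw [h5] at hexp
    simp only [zero_add, Nat.choose_one_right, pow_zero, Nat.cast_one, one_smul] at hexp
    rw [smul_add, neg_add, eq_comm, ← sub_eq_zero]
    rw [← neg_eq_zero, ← hexp]
    abel
  · intro x
    rw [LinearMap.sum_apply]
    refine AddSubgroup.sum_mem _ fun j _ => ?_
    rw [LinearMap.smul_apply]
    have h : (N ^ j) x ∈ AddSubgroup.closure {y | ∃ k : ℕ, y = (N ^ k) x} :=
      AddSubgroup.subset_closure ⟨j, rfl⟩
    exact AddSubgroup.zsmul_mem _ h _

theorem fieldBasis (K : Type) [Field K] (Q : Type) [AddCommGroup Q] [Module K Q]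
    [Module.Finite K Q] :
    ∃ (r : ℕ) (B : Fin r → Q), (∀ x, ∃ c : Fin r → K, x = ∑ i, c i • B i) ∧
      ∀ c : Fin r → K, ∑ i, c i • B i = 0 → ∀ i, c i = 0 := by
  let B := Module.finBasis K Q
  refine ⟨Module.finrank K Q, B, fun x => ⟨fun i => B.repr x i, (B.sum_repr x).symm⟩, ?_⟩
  intro c hc i
  exact Fintype.linearIndependent_iff.1 B.linearIndependent _ hc i

theorem zbasis (p : ℕ) (hp : p.Prime) (Q : Type) [AddCommGroup Q] [Module.Finite ℤ Q]
    (hk : ∀ x : Q, p • x = 0) :
    ∃ (r : ℕ) (B : Fin r → Q), (∀ x, ∃ c : Fin r → ℤ, x = ∑ i, c i • B i) ∧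
      ∀ c : Fin r → ℤ, ∑ i, c i • B i = 0 → ∀ i, (p : ℤ) ∣ c i := by
  have hfact : Fact p.Prime := ⟨hp⟩
  let inst1 : Module (ZMod p) Q := AddCommGroup.zmodModule hk
  have inst2 : Module.Finite (ZMod p) Q :=
    Module.Finite.of_restrictScalars_finite ℤ (ZMod p) Q
  obtain ⟨r, B, h1, h2⟩ := @fieldBasis (ZMod p) _ Q _ inst1 inst2
  refine ⟨r, B, ?_, ?_⟩
  · intro x
    obtain ⟨c, hc⟩ := h1 x
    refine ⟨fun i => ((c i).val : ℤ), ?_⟩
    rw [hc]
    refine Finset.sum_congr rfl fun i _ => ?_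
    rw [← Int.cast_smul_eq_zsmul (ZMod p)]
    congr 1
    rw [Int.cast_natCast, ZMod.natCast_zmod_val]
  · intro c hc i
    have h3 : ∑ i, ((c i : ℤ) : ZMod p) • B i = 0 := by
      rw [← hc]
      refine Finset.sum_congr rfl fun i _ => ?_
      rw [Int.cast_smul_eq_zsmul]
    exact (ZMod.intCast_zmod_eq_zero_iff_dvd _ _).1 (h2 _ h3 i)

theorem lemA {L : Type} [AddCommGroup L] [Module.Finite ℤ L] (p : ℕ) (hp : p.Prime)
    (htf : ∀ (m : ℤ) (x : L), m ≠ 0 → m • x = 0 → x = 0)
    (T : Module.End ℤ L) (hT : ∑ k ∈ range p, T ^ k = 0) :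
    ∃ (r : ℕ) (g : Fin r → L),
      (∀ c : Fin r → ℕ → ℤ,
        (∃ κ : L, ∑ i, ∑ a ∈ range (p - 1), c i a • ((T - 1) ^ a) (g i) = (p : ℤ) • κ) →
        ∀ i, ∀ a < p - 1, (p : ℤ) ∣ c i a) ∧
      (∀ x : L, ∃ d : ℕ, ¬ p ∣ d ∧
        d • x ∈ AddSubgroup.closure {y | ∃ (i : Fin r) (k : ℕ), y = (T ^ k) (g i)}) ∧
      (∀ i, ∃ κ : L, ((T - 1) ^ (p - 1)) (g i) = -((p : ℤ) • κ) ∧
        κ - g i ∈ AddSubgroup.closure {y | ∃ k : ℕ, y = ((T - 1) ^ (k + 1)) (g i)}) := by
  obtain ⟨q, hpq⟩ : ∃ q : ℕ, p = q + 2 := ⟨p - 2, by have := hp.two_le; omega⟩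
  obtain ⟨hinj, V, hV, hVc⟩ := geom_expand p q hpq hp htf T hT
  set N := T - 1 with hN
  have hq1 : p - 1 = q + 1 := by omega
  rw [hq1]
  have hfact : Fact p.Prime := ⟨hp⟩
  have hVx : ∀ x, (N ^ (q + 1)) x = -((p : ℤ) • (x + N (V x))) := by
    intro x
    rw [hV]; rfl
  have hinjm : ∀ m x, (N ^ m) x = 0 → x = 0 := by
    intro m
    induction m with
    | zero => intro x hx; simpa using hx
    | succ m ih => intro x hx; rw [pow_succ, Module.End.mul_apply] at hx; exact hinj _ (ih _ hx)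
  -- p L is contained in N ^ (p - 1) L
  have hpm : ∀ (m : ℕ) (x : L), ∃ y z, (p : ℤ) • x = (N ^ (q + 1)) y + (N ^ m) ((p : ℤ) • z) := by
    intro m
    induction m with
    | zero => intro x; exact ⟨0, x, by simp⟩
    | succ m ih =>
      intro x
      obtain ⟨y, z, h⟩ := ih x
      refine ⟨y - (N ^ m) z, -(V z), ?_⟩
      rw [h]
      have h1 : (p : ℤ) • z = -(N ^ (q + 1)) z - N ((p : ℤ) • V z) := by
        rw [hVx, map_smul, smul_add]; abel
      rw [h1, map_sub, map_sub, map_neg]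
      have h2 : (N ^ m) ((N ^ (q + 1)) z) = (N ^ (q + 1)) ((N ^ m) z) := by
        rw [← Module.End.mul_apply, ← Module.End.mul_apply, ← pow_add, ← pow_add, add_comm]
      have h3 : (N ^ m) (N ((p : ℤ) • V z)) = (N ^ (m + 1)) ((p : ℤ) • V z) := by
        rw [pow_succ, Module.End.mul_apply]
      rw [h2, h3, smul_neg, map_neg]
      abel
  have hpL : ∀ x : L, ∃ y, (p : ℤ) • x = (N ^ (q + 1)) y := by
    intro x
    obtain ⟨y, z, h⟩ := hpm (q + 1) x
    exact ⟨y + (p : ℤ) • z, by rw [h, map_add]⟩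
  -- the quotient by N L
  set NL : Submodule ℤ L := LinearMap.range N with hNL
  have hkill : ∀ x : L ⧸ NL, p • x = 0 := by
    intro x
    obtain ⟨x, rfl⟩ := Submodule.mkQ_surjective NL x
    rw [← map_nsmul]
    rw [Submodule.mkQ_apply, Submodule.Quotient.mk_eq_zero]
    obtain ⟨y, hy⟩ := hpL x
    refine ⟨(N ^ q) y, ?_⟩
    rw [← natCast_zsmul, hy, pow_succ', Module.End.mul_apply]
  obtain ⟨r, B, hB1, hB2⟩ := zbasis p hp (L ⧸ NL) hkill
  have hg : ∀ i, ∃ x : L, NL.mkQ x = B i := fun i => Submodule.mkQ_surjective NL (B i)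
  choose g hg using hg
  have gspan : ∀ x : L, ∃ (c : Fin r → ℤ) (y : L), x = ∑ i, c i • g i + N y := by
    intro x
    obtain ⟨c, hc⟩ := hB1 (NL.mkQ x)
    have h2 : NL.mkQ (∑ i, c i • g i) = NL.mkQ x := by
      rw [map_sum, hc]
      refine Finset.sum_congr rfl fun i _ => ?_
      rw [map_zsmul, hg]
    have h3 : x - ∑ i, c i • g i ∈ NL := by
      rw [← Submodule.Quotient.mk_eq_zero, ← Submodule.mkQ_apply, map_sub, h2, sub_self]
    obtain ⟨y, hy⟩ := h3
    exact ⟨c, y, by rw [hy]; abel⟩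
  have gind : ∀ c : Fin r → ℤ, (∃ y, ∑ i, c i • g i = N y) → ∀ i, (p : ℤ) ∣ c i := by
    rintro c ⟨y, hy⟩ i
    have h1 : NL.mkQ (∑ i, c i • g i) = 0 := by
      rw [hy, Submodule.mkQ_apply, Submodule.Quotient.mk_eq_zero]
      exact ⟨y, rfl⟩
    rw [map_sum] at h1
    apply hB2 c
    rw [← h1]
    refine Finset.sum_congr rfl fun i _ => ?_
    rw [map_zsmul, hg]
  set S0 : AddSubgroup L := AddSubgroup.closure {y | ∃ (i : Fin r) (k : ℕ), y = (T ^ k) (g i)}
    with hS0
  have hTS : ∀ x ∈ S0, T x ∈ S0 := by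
    intro x hx
    induction hx using AddSubgroup.closure_induction with
    | mem x hx =>
      obtain ⟨i, k, rfl⟩ := hx
      exact AddSubgroup.subset_closure ⟨i, k + 1, by rw [pow_succ', Module.End.mul_apply]⟩
    | zero => rw [map_zero]; exact S0.zero_mem
    | add x y _ _ h1 h2 => rw [map_add]; exact S0.add_mem h1 h2
    | neg x _ h1 => rw [map_neg]; exact S0.neg_mem h1
  have hNS : ∀ m, ∀ x ∈ S0, (N ^ m) x ∈ S0 := by
    intro m
    induction m with
    | zero => intro x hx; simpa using hx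
    | succ m ih =>
      intro x hx
      rw [pow_succ, Module.End.mul_apply]
      apply ih
      rw [hN]
      exact S0.sub_mem (hTS x hx) hx
  have hgS : ∀ i, g i ∈ S0 := fun i => AddSubgroup.subset_closure ⟨i, 0, by simp⟩
  have hgen : ∀ (m : ℕ) (x : L), ∃ s ∈ S0, ∃ y, x = s + (N ^ m) y := by
    intro m
    induction m with
    | zero => intro x; exact ⟨0, S0.zero_mem, x, by simp⟩
    | succ m ih =>
      intro x
      obtain ⟨s, hs, y, hy⟩ := ih x
      obtain ⟨c, y', hy'⟩ := gspan y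
      refine ⟨s + (N ^ m) (∑ i, c i • g i), S0.add_mem hs ?_, y', ?_⟩
      · exact hNS m _ (S0.sum_mem fun i _ => S0.zsmul_mem (hgS i) _)
      · rw [hy]
        conv_lhs => rw [hy']
        rw [map_add, pow_succ, Module.End.mul_apply, add_assoc]
  refine ⟨r, g, ?_, ?_, ?_⟩
  · -- independence
    rintro c ⟨κ, hκ⟩
    have key : ∀ a0 ≤ q + 1, ∀ i, ∀ a < a0, (p : ℤ) ∣ c i a := by
      intro a0
      induction a0 with
      | zero => intro _ i a ha; omega
      | succ a0 ih =>
        intro ha0 i a ha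
        have ih' := ih (by omega)
        rcases Nat.lt_succ_iff_lt_or_eq.1 ha with h | h
        · exact ih' i a h
        subst h
        apply gind (fun i => c i a)
        -- the sum splits
        have h1 : ∑ i, ∑ j ∈ range (q + 1), c i j • (N ^ j) (g i) =
            (∑ i, ∑ j ∈ range a, c i j • (N ^ j) (g i)) + (N ^ a) (∑ i, c i a • g i) +
            ∑ i, ∑ j ∈ range (q - a), c i (a + 1 + j) • (N ^ (a + 1 + j)) (g i) := by
          rw [map_sum, ← Finset.sum_add_distrib, ← Finset.sum_add_distrib]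
          refine Finset.sum_congr rfl fun i _ => ?_
          rw [map_zsmul, ← Finset.sum_range_succ (fun j => c i j • (N ^ j) (g i)),
            ← Finset.sum_range_add]
          congr 2
          omega
        have h2 : ∃ z, ∑ i, ∑ j ∈ range a, c i j • (N ^ j) (g i) = (p : ℤ) • z := by
          have : ∀ i, ∀ j, ∃ z : L, j < a → c i j • (N ^ j) (g i) = (p : ℤ) • z := by
            intro i j
            by_cases hj : j < a
            · obtain ⟨e, he⟩ := ih' i j hj
              exact ⟨e • (N ^ j) (g i), fun _ => by rw [he, mul_smul]⟩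
            · exact ⟨0, fun h => absurd h hj⟩
          choose z hz using this
          refine ⟨∑ i, ∑ j ∈ range a, z i j, ?_⟩
          rw [Finset.smul_sum]
          refine Finset.sum_congr rfl fun i _ => ?_
          rw [Finset.smul_sum]
          exact Finset.sum_congr rfl fun j hj => hz i j (Finset.mem_range.1 hj)
        obtain ⟨z, hz⟩ := h2
        obtain ⟨y, hy⟩ := hpL (κ - z)
        have h3 : (N ^ a) (∑ i, c i a • g i) = (N ^ a) (N ((N ^ (q - a)) y -
            ∑ i, ∑ j ∈ range (q - a), c i (a + 1 + j) • (N ^ j) (g i))) := by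
          have e1 : (N ^ a) (N ((N ^ (q - a)) y)) = (N ^ (q + 1)) y := by
            rw [← Module.End.mul_apply, ← Module.End.mul_apply, ← pow_succ, ← pow_add]
            congr 2
            omega
          have e2 : (N ^ a) (N (∑ i, ∑ j ∈ range (q - a), c i (a + 1 + j) • (N ^ j) (g i))) =
              ∑ i, ∑ j ∈ range (q - a), c i (a + 1 + j) • (N ^ (a + 1 + j)) (g i) := by
            rw [← Module.End.mul_apply, ← pow_succ, map_sum]
            refine Finset.sum_congr rfl fun i _ => ?_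
            rw [map_sum]
            refine Finset.sum_congr rfl fun j _ => ?_
            rw [map_zsmul, ← Module.End.mul_apply, ← pow_add]
          rw [map_sub, map_sub, e1, e2, ← hy, smul_sub, ← hκ, ← hz, h1]
          abel
        refine ⟨(N ^ (q - a)) y - ∑ i, ∑ j ∈ range (q - a), c i (a + 1 + j) • (N ^ j) (g i), ?_⟩
        rw [← sub_eq_zero]
        apply hinjm a
        rw [map_sub, h3, sub_self]
    intro i a ha
    exact key (q + 1) le_rfl i a ha
  · -- generation
    intro x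
    let S : Submodule ℤ L := AddSubgroup.toIntSubmodule S0
    have hfg : (⊤ : Submodule ℤ (L ⧸ S)).FG := Module.Finite.fg_top
    have hle : (⊤ : Submodule ℤ (L ⧸ S)) ≤ Ideal.span {(p : ℤ)} • (⊤ : Submodule ℤ (L ⧸ S)) := by
      intro z _
      obtain ⟨z, rfl⟩ := Submodule.mkQ_surjective S z
      obtain ⟨s, hs, y, hy⟩ := hgen (q + 1) z
      rw [hVx] at hy
      have h1 : S.mkQ z = (p : ℤ) • S.mkQ (-(y + N (V y))) := by
        rw [hy, map_add, ← map_zsmul, smul_neg]
        have : S.mkQ s = 0 := by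
          rw [Submodule.mkQ_apply, Submodule.Quotient.mk_eq_zero]
          exact hs
        rw [this, zero_add]
      rw [h1]
      exact Submodule.smul_mem_smul (Ideal.mem_span_singleton_self _) Submodule.mem_top
    obtain ⟨t, ht1, ht2⟩ := Submodule.exists_sub_one_mem_and_smul_eq_zero_of_fg_of_le_smul
      (Ideal.span {(p : ℤ)}) ⊤ hfg hle
    have hpt : ¬ (p : ℤ) ∣ t := by
      intro h
      rw [Ideal.mem_span_singleton] at ht1
      have : (p : ℤ) ∣ 1 := by
        have := dvd_sub h ht1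
        simpa using this
      have h2 := Int.natCast_dvd_natCast.1 (by simpa using this : ((p : ℕ) : ℤ) ∣ ((1 : ℕ) : ℤ))
      exact hp.one_lt.ne' (Nat.dvd_one.1 h2)
    refine ⟨t.natAbs, fun h => hpt (Int.natCast_dvd.2 h), ?_⟩
    have h1 := ht2 (S.mkQ x) Submodule.mem_top
    rw [← map_zsmul, Submodule.mkQ_apply, Submodule.Quotient.mk_eq_zero] at h1
    have h2 : t • x ∈ S0 := h1
    rcases Int.natAbs_eq t with h | h
    · rw [← natCast_zsmul, ← h]; exact h2
    · rw [← natCast_zsmul]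
      have : ((t.natAbs : ℕ) : ℤ) = -t := by omega
      rw [this, neg_smul]
      exact S0.neg_mem h2
  · intro i
    refine ⟨g i + N (V (g i)), hVx (g i), ?_⟩
    rw [add_sub_cancel_left]
    have h1 := hVc (g i)
    have h2 : ∀ x ∈ AddSubgroup.closure {y | ∃ k : ℕ, y = (N ^ k) (g i)},
        N x ∈ AddSubgroup.closure {y | ∃ k : ℕ, y = (N ^ (k + 1)) (g i)} := by
      intro x hx
      induction hx using AddSubgroup.closure_induction with
      | mem x hx =>
        obtain ⟨k, rfl⟩ := hx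
        exact AddSubgroup.subset_closure ⟨k, by rw [pow_succ', Module.End.mul_apply]⟩
      | zero => rw [map_zero]; exact AddSubgroup.zero_mem _
      | add x y _ _ h1 h2 => rw [map_add]; exact AddSubgroup.add_mem _ h1 h2
      | neg x _ h1 => rw [map_neg]; exact AddSubgroup.neg_mem _ h1
    exact h2 _ h1


open Pool.Agent.K3h75.TO

theorem t_LAT : S_LAT := by
  intro Λ _ n b τ p hp hτ I hI
  have hfin : Module.Finite ℤ Λ := Module.Finite.of_basis b
  have htf : ∀ (m : ℤ) (x : Λ), m ≠ 0 → m • x = 0 → x = 0 := by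
    intro m x hm hx
    apply b.ext_elem
    intro i
    have h1 := congrArg (fun y => b.repr y i) hx
    simp only [map_zsmul, map_zero, Finsupp.smul_apply, Finsupp.zero_apply, smul_eq_mul] at h1
    rw [map_zero, Finsupp.zero_apply]
    exact (mul_eq_zero.1 h1).resolve_left hm
  have hNadd : ∀ x y, Nm τ p (x + y) = Nm τ p x + Nm τ p y := by
    intro x y
    unfold Nm
    rw [← Finset.sum_add_distrib]
    refine Finset.sum_congr rfl fun k _ => ?_
    exact iterate_map_add τ k x y
  have hNz : ∀ (m : ℤ) x, Nm τ p (m • x) = m • Nm τ p x := by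
    intro m x
    unfold Nm
    rw [Finset.smul_sum]
    refine Finset.sum_congr rfl fun k _ => ?_
    exact iterate_map_zsmul τ k x m
  have hN0 : Nm τ p 0 = 0 := by
    have := hNz 0 0
    simpa using this
  have hNτ : ∀ x, Nm τ p (τ x) = τ (Nm τ p x) := by
    intro x
    unfold Nm
    rw [map_sum]
    refine Finset.sum_congr rfl fun k _ => ?_
    rw [← Function.iterate_succ_apply, Function.iterate_succ_apply']
  let L : Submodule ℤ Λ :=
    { carrier := {a | Sp b I a ∧ Nm τ p a = 0}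
      zero_mem' := ⟨fun i _ => by simp, hN0⟩
      add_mem' := by
        rintro x y ⟨h1, h2⟩ ⟨h3, h4⟩
        refine ⟨fun i hi => ?_, ?_⟩
        · rw [map_add, Finsupp.add_apply, h1 i hi, h3 i hi, add_zero]
        · rw [hNadd, h2, h4, add_zero]
      smul_mem' := by
        rintro m x ⟨h1, h2⟩
        refine ⟨fun i hi => ?_, ?_⟩
        · rw [map_zsmul, Finsupp.smul_apply, h1 i hi, smul_zero]
        · rw [hNz, h2, smul_zero] }
  have hL : ∀ a, a ∈ L ↔ (Sp b I a ∧ Nm τ p a = 0) := fun a => Iff.rfl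
  have hsat : ∀ (m : ℤ) (x : Λ), m ≠ 0 → m • x ∈ L → x ∈ L := by
    intro m x hm hx
    rw [hL] at hx ⊢
    refine ⟨fun i hi => ?_, ?_⟩
    · have h1 := hx.1 i hi
      rw [map_zsmul, Finsupp.smul_apply, smul_eq_mul] at h1
      exact (mul_eq_zero.1 h1).resolve_left hm
    · have h1 := hx.2
      rw [hNz] at h1
      exact htf m _ hm h1
  have hstab : ∀ x ∈ L, τ.toIntLinearMap x ∈ L := by
    intro x hx
    rw [hL] at hx ⊢
    refine ⟨hI x hx.1, ?_⟩
    change Nm τ p (τ x) = 0
    rw [hNτ, hx.2, map_zero]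
  let T : Module.End ℤ L := LinearMap.restrict τ.toIntLinearMap hstab
  have hT1 : ∀ x : L, ((T x : L) : Λ) = τ x := fun x => rfl
  have hTk : ∀ (k : ℕ) (x : L), (((T ^ k) x : L) : Λ) = τ^[k] x := by
    intro k
    induction k with
    | zero => intro x; simp
    | succ k ih =>
      intro x
      rw [pow_succ', Module.End.mul_apply, hT1, ih, Function.iterate_succ_apply']
  have hDk : ∀ (k : ℕ) (x : L), ((((T - 1) ^ k) x : L) : Λ) = (dl τ)^[k] x := by
    intro k
    induction k with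
    | zero => intro x; simp
    | succ k ih =>
      intro x
      rw [pow_succ', Module.End.mul_apply, Function.iterate_succ_apply', ← ih]
      rfl
  have hT : ∑ k ∈ range p, T ^ k = 0 := by
    ext x
    rw [LinearMap.sum_apply]
    have h1 : ((∑ k ∈ range p, (T ^ k) x : L) : Λ) = Nm τ p x := by
      rw [Submodule.coe_sum]
      exact Finset.sum_congr rfl fun k _ => hTk k x
    rw [h1, ((hL x).1 x.2).2]
    rfl
  have hLfin : Module.Finite ℤ L := inferInstance
  obtain ⟨r, g, h1, h2, h3⟩ := lemA (L := L) p hp (by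
    intro m x hm hx
    apply Subtype.ext
    apply htf m x hm
    have := congrArg (fun y : L => (y : Λ)) hx
    simpa using this) T hT
  refine ⟨r, fun i => (g i : Λ), ⟨fun i => ((hL _).1 (g i).2).1, fun i => ((hL _).1 (g i).2).2,
    ?_, ?_, ?_⟩⟩
  · rintro c ⟨κ, hκ⟩ i a
    set C : Fin r → ℕ → ℤ := fun i a => if h : a < p - 1 then c i ⟨a, h⟩ else 0 with hC
    have e1 : ((∑ i, ∑ a ∈ range (p - 1), C i a • ((T - 1) ^ a) (g i) : L) : Λ) = (p : ℤ) • κ := by
      rw [← hκ, Submodule.coe_sum]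
      refine Finset.sum_congr rfl fun i _ => ?_
      rw [Submodule.coe_sum, ← Fin.sum_univ_eq_sum_range
        (fun a => ((C i a • ((T - 1) ^ a) (g i) : L) : Λ))]
      refine Finset.sum_congr rfl fun a _ => ?_
      rw [Submodule.coe_smul, hDk]
      congr 1
      rw [hC]
      simp
    have e2 : κ ∈ L := by
      apply hsat (p : ℤ) κ (by exact_mod_cast hp.ne_zero)
      rw [← e1]
      exact Subtype.mem _
    have e3 := h1 C ⟨⟨κ, e2⟩, Subtype.ext (by rw [e1]; rfl)⟩ i a a.2
    rw [hC] at e3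
    simpa using e3
  · intro a ha1 ha2
    obtain ⟨d, hd1, hd2⟩ := h2 ⟨a, (hL a).2 ⟨ha1, ha2⟩⟩
    refine ⟨d, hd1, ?_⟩
    have key : ∀ y ∈ AddSubgroup.closure {y : L | ∃ (i : Fin r) (k : ℕ), y = (T ^ k) (g i)},
        (y : Λ) ∈ AddSubgroup.closure {y : Λ | ∃ (i : Fin r) (k : ℕ), y = τ^[k] (g i : Λ)} := by
      intro y hy
      induction hy using AddSubgroup.closure_induction with
      | mem x hx =>
        obtain ⟨i, k, rfl⟩ := hx
        exact AddSubgroup.subset_closure ⟨i, k, hTk k (g i)⟩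
      | zero => exact AddSubgroup.zero_mem _
      | add x y _ _ h1 h2 => exact AddSubgroup.add_mem _ h1 h2
      | neg x _ h1 => exact AddSubgroup.neg_mem _ h1
    exact key _ hd2
  · intro i
    obtain ⟨κ, hκ1, hκ2⟩ := h3 i
    refine ⟨κ, ((hL _).1 κ.2).1, ((hL _).1 κ.2).2, ?_, ?_⟩
    · rw [← hDk, hκ1]
      rfl
    · have key : ∀ y ∈ AddSubgroup.closure {y : L | ∃ k : ℕ, y = ((T - 1) ^ (k + 1)) (g i)},
          (y : Λ) ∈ AddSubgroup.closure {y : Λ | ∃ k : ℕ, y = (dl τ)^[k + 1] (g i : Λ)} := by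
        intro y hy
        induction hy using AddSubgroup.closure_induction with
        | mem x hx =>
          obtain ⟨k, rfl⟩ := hx
          exact AddSubgroup.subset_closure ⟨k, hDk (k + 1) (g i)⟩
        | zero => exact AddSubgroup.zero_mem _
        | add x y _ _ h1 h2 => exact AddSubgroup.add_mem _ h1 h2
        | neg x _ h1 => exact AddSubgroup.neg_mem _ h1
      exact key _ hκ2

end Pool.Agent.K3h26.LAT
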